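import Mathlib

set_option autoImplicit false

namespace Pool.Agent.Results.MP_8926dc_co.Counter

/-- K5 on 0..4, vertex 5 joined to 0,1,2,3 and vertex 6 joined to 0,1,2. -/
def H : SimpleGraph (Fin 7) where
  Adj u v := u ≠ v ∧ ((u.1 < 5 ∧ v.1 < 5) ∨ (u.1 = 5 ∧ v.1 < 4) ∨ (v.1 = 5 ∧ u.1 < 4) ∨
    (u.1 = 6 ∧ v.1 < 3) ∨ (v.1 = 6 ∧ u.1 < 3))
  symm := ⟨fun u v h => by revert u v; decide⟩
  loopless := ⟨fun _ h => h.1 rfl⟩

instance : DecidableRel H.Adj := fun _ _ => by unfold H; infer_instance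

theorem result :
    ¬ (∀ p r s t : ℕ, 3 ≤ p → p < r → r ≤ s → p - 2 ≤ t → t < s →
      ∀ (V : Type) [Fintype V] (G : SimpleGraph V),
        (G.cliqueSet p).ncard ≤ s.choose p + (t + 1).choose (p - 1) - 1 →
        (G.cliqueSet r).ncard ≤ s.choose r + t.choose (r - 1)) := by
  intro h
  have h1 := h 3 4 5 4 (by norm_num) (by norm_num) (by norm_num) (by norm_num) (by norm_num)
    (Fin 7) H
  have e : ∀ n : ℕ, (H.cliqueSet n).ncard = (H.cliqueFinset n).card := by
    intro n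
    rw [← SimpleGraph.coe_cliqueFinset, Set.ncard_coe_finset]
  have c3 : (H.cliqueFinset 3).card = 19 := by decide +kernel
  have c4 : (H.cliqueFinset 4).card = 10 := by decide +kernel
  rw [e, e, c3, c4] at h1
  revert h1
  decide

end Pool.Agent.Results.MP_8926dc_co.Counter
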